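import Pool.Agent.Run7.h851.T.Iface
import Pool.Agent.H574R2.D3.D1
import Pool.Agent.H574R2.D3.D2

/-!
# Project T, piece T-D1: splitting of the exponent, class pairs (port of `H574R2/D3/D1.lean` and `Dim7/D2.lean`)

* `t_D1_split : St_D1_split`, `t_D2_kap_mem : St_D2_kap_mem`, `t_D2_eM_kap : St_D2_eM_kap`;
* `D2.Np_congr`, `D2.fM_congr`, `D2.eM_congr` : the exponents depend on `k % p` only;
* `D2.Np_refl`, `D2.fM_refl`, `D2.eM_refl` : they are invariant under the reflection of `k` to `4 n - k`.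
-/

open Polynomial Pool.Agent.H337R2 Pool.Agent.Run7.h851.T

namespace Pool.Agent.Run7.h950.T

noncomputable section

theorem t_D1_split : St_D1_split := by
  intro y
  by_cases hy : 0 < y
  · obtain ⟨m, hm0, hm⟩ : ∃ m : ℤ, 0 ≤ m ∧ (y = 4 * m ∨ y = 4 * m + 1 ∨ y = 4 * m + 2 ∨ y = 4 * m + 3) :=
      ⟨y / 4, by omega, by omega⟩
    have hT4 : T4 y = 3 * (y + 1) ^ 2 / 8 := by
      unfold T4
      rw [if_pos hy]
    rw [hT4]
    rcases hm with rfl | rfl | rfl | rfl
    · refine ⟨3 * m, ?_⟩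
      have h1 := Pool.Agent.H574R2.D3.D1_two_T1 (3 * m) (by omega)
      have h2 := Pool.Agent.H574R2.D3.D1_two_T1 (4 * m - 3 * m) (by omega)
      have h3 : 3 * (4 * m + 1) ^ 2 / 8 = 6 * m ^ 2 + 3 * m := by
        have : 3 * (4 * m + 1) ^ 2 = 3 + (6 * m ^ 2 + 3 * m) * 8 := by ring
        rw [this, Int.add_mul_ediv_right _ _ (by norm_num)]
        norm_num
      rw [h3]
      nlinarith
    · refine ⟨3 * m + 1, ?_⟩
      have h1 := Pool.Agent.H574R2.D3.D1_two_T1 (3 * m + 1) (by omega)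
      have h2 := Pool.Agent.H574R2.D3.D1_two_T1 (4 * m + 1 - (3 * m + 1)) (by omega)
      have h3 : 3 * (4 * m + 1 + 1) ^ 2 / 8 = 6 * m ^ 2 + 6 * m + 1 := by
        have : 3 * (4 * m + 1 + 1) ^ 2 = 4 + (6 * m ^ 2 + 6 * m + 1) * 8 := by ring
        rw [this, Int.add_mul_ediv_right _ _ (by norm_num)]
        norm_num
      rw [h3]
      nlinarith
    · refine ⟨3 * m + 2, ?_⟩
      have h1 := Pool.Agent.H574R2.D3.D1_two_T1 (3 * m + 2) (by omega)
      have h2 := Pool.Agent.H574R2.D3.D1_two_T1 (4 * m + 2 - (3 * m + 2)) (by omega)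
      have h3 : 3 * (4 * m + 2 + 1) ^ 2 / 8 = 6 * m ^ 2 + 9 * m + 3 := by
        have : 3 * (4 * m + 2 + 1) ^ 2 = 3 + (6 * m ^ 2 + 9 * m + 3) * 8 := by ring
        rw [this, Int.add_mul_ediv_right _ _ (by norm_num)]
        norm_num
      rw [h3]
      nlinarith
    · refine ⟨3 * m + 2, ?_⟩
      have h1 := Pool.Agent.H574R2.D3.D1_two_T1 (3 * m + 2) (by omega)
      have h2 := Pool.Agent.H574R2.D3.D1_two_T1 (4 * m + 3 - (3 * m + 2)) (by omega)
      have h3 : 3 * (4 * m + 3 + 1) ^ 2 / 8 = 6 * m ^ 2 + 12 * m + 6 := by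
        have : 3 * (4 * m + 3 + 1) ^ 2 = (6 * m ^ 2 + 12 * m + 6) * 8 := by ring
        rw [this, Int.mul_ediv_cancel _ (by norm_num)]
      rw [h3]
      nlinarith
  · refine ⟨0, ?_⟩
    have h1 : Pool.Agent.H574R2.D3.T1 0 = 0 := by
      unfold Pool.Agent.H574R2.D3.T1
      rw [if_neg (lt_irrefl 0)]
    have h2 : Pool.Agent.H574R2.D3.T1 (y - 0) = 0 := by
      unfold Pool.Agent.H574R2.D3.T1
      rw [if_neg (by omega)]
    have h3 : T4 y = 0 := by
      unfold T4
      rw [if_neg hy]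
    show Pool.Agent.H574R2.D3.T1 0 + 3 * Pool.Agent.H574R2.D3.T1 (y - 0) ≤ _
    rw [h1, h2, h3]
    norm_num

theorem t_D2_kap_mem : St_D2_kap_mem := by
  intro n p k hp hk
  unfold kap Kset
  rw [Finset.mem_filter, Finset.mem_range]
  refine ⟨(min_le_left _ _).trans_lt (Nat.mod_lt _ hp), ?_⟩
  rcases le_total (k % p) ((4 * n - k) % p) with h | h
  · rw [min_eq_left h, Pool.Agent.H574R2.D3.D2_mod1 hk]
    exact h
  · rw [min_eq_right h, Pool.Agent.H574R2.D3.D2_mod2 hk]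
    exact h

namespace D2

lemma Np_congr {n p k k' : ℕ} (h : k % p = k' % p) : Np n p k = Np n p k' := by
  unfold Np
  simp only [Pool.Agent.H574R2.D3.D2_cnt_congr h]

lemma fM_congr {n p k k' : ℕ} (h : k % p = k' % p) : fM n p k = fM n p k' := by
  unfold fM
  rw [Np_congr h]

lemma eM_congr {n p k k' : ℕ} (h : k % p = k' % p) : eM n p k = eM n p k' := by
  unfold eM
  rw [fM_congr h]

lemma Np_refl {n p k : ℕ} (hk : k ≤ 4 * n) : Np n p (4 * n - k) = Np n p k := by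
  unfold Np
  rw [Pool.Agent.H574R2.D3.D2_cnt_refl (A := 0) (B := 4 * n) (by omega) (by omega) hk]
  have h1 : 4 * n - 4 * n = 0 := by omega
  have h2 : 4 * n - 0 = 4 * n := by omega
  rw [h1, h2]

/-- reflection of `k` to `4 n - k` for the total order of the class -/
lemma fM_refl {n p k : ℕ} (hk : k ≤ 4 * n) : fM n p (4 * n - k) = fM n p k := by
  unfold fM
  rw [Np_refl hk]

/-- reflection of `k` to `4 n - k` for the exponent -/
lemma eM_refl {n p k : ℕ} (hk : k ≤ 4 * n) : eM n p (4 * n - k) = eM n p k := by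
  unfold eM
  rw [fM_refl hk]

lemma fM_kap {n p k : ℕ} (hk : k ≤ 4 * n) : fM n p (kap n p k) = fM n p k := by
  unfold kap
  rcases le_total (k % p) ((4 * n - k) % p) with h | h
  · rw [min_eq_left h]
    exact fM_congr (Nat.mod_mod _ _)
  · rw [min_eq_right h, fM_congr (Nat.mod_mod _ _), fM_refl hk]

lemma eM_kap {n p k : ℕ} (hk : k ≤ 4 * n) : eM n p (kap n p k) = eM n p k := by
  unfold eM
  rw [fM_kap hk]

end D2

theorem t_D2_eM_kap : St_D2_eM_kap := by
  intro n p k _ _ hk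
  exact D2.eM_kap hk

end

end Pool.Agent.Run7.h950.T
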